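import Pool.Agent.Y283.SH.Vec

/-!
# The SHAI property of separable spaces with the bounded approximation property which contain
their own `c₀`-sum

A Banach space `X` has the SHAI property if every surjective homomorphism from `B(X)` onto `B(Y)`,
`Y` any nonzero Banach space, is injective.

Theorem.  Let `X` be a separable Banach space with a sequence of operators of finite rank which
tends strongly to the identity (bounded approximation property), and let there be a bounded operator
`J` from the `c₀`-sum `c₀(X)` of countably many copies of `X` to `X` and a bounded sequence of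
operators `V n` of `X` with `V n (J g) = g n` (for instance: `X` has a complemented subspace
isomorphic to `c₀(X)`).  Then `X` has the SHAI property.

In particular this holds for `C([0,1], E)`, for every separable Banach space `E` with a sequence of
operators of finite rank tending strongly to the identity; `E = 𝕜` is the question of the problem
file, answered by the starting result `ShaiC01`, whose method (a counting argument with glued
operators) is used here.
-/

set_option autoImplicit false

open Filter Topology
open scoped ZeroAtInfty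

namespace Pool.Agent.Results.MP_7b3514_an.ShaiCZeroSums

universe u v w

/-- The SHAI property: for every nonzero Banach space `Y`, every surjective algebra homomorphism
(multiplicative linear map; neither continuity nor unitality is assumed) from the bounded operators
on `X` onto the bounded operators on `Y` is injective. -/
def HasSHAI (𝕜 : Type u) [RCLike 𝕜] (X : Type v) [NormedAddCommGroup X] [NormedSpace 𝕜 X] : Prop :=
  ∀ (Y : Type w) [NormedAddCommGroup Y] [NormedSpace 𝕜 Y] [CompleteSpace Y] [Nontrivial Y]
    (φ : (X →L[𝕜] X) →ₙₐ[𝕜] (Y →L[𝕜] Y)), Function.Surjective φ → Function.Injective φ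

/-- `X` has a sequence of operators with finite dimensional range which tends strongly to the
identity. -/
def HasFiniteRankApproximation (𝕜 : Type u) [RCLike 𝕜] (X : Type v) [NormedAddCommGroup X]
    [NormedSpace 𝕜 X] : Prop :=
  ∃ P : ℕ → (X →L[𝕜] X), (∀ n, FiniteDimensional 𝕜 (LinearMap.range (P n : X →ₗ[𝕜] X))) ∧
    ∀ x, Tendsto (fun n => P n x) atTop (𝓝 x)

/-- There are a bounded operator `J` from `c₀(X)` (the null sequences of `X`) to `X` and a bounded
sequence of operators `V n` of `X` with `V n (J g) = g n` for all `g` and `n`. -/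
def ContainsCZeroSum (𝕜 : Type u) [RCLike 𝕜] (X : Type v) [NormedAddCommGroup X]
    [NormedSpace 𝕜 X] : Prop :=
  ∃ (J : C₀(ℕ, X) →L[𝕜] X) (V : ℕ → (X →L[𝕜] X)) (c : ℝ), (∀ n, ‖V n‖ ≤ c) ∧
    ∀ n g, V n (J g) = g n

/-- **Main theorem.**  Let `𝕜 = ℝ` or `ℂ`.

(1) Every separable Banach space `X` with a sequence of operators of finite rank tending strongly to
the identity, which contains its `c₀`-sum in the sense of `ContainsCZeroSum`, has the SHAI property.

(2) For every separable Banach space `E` with a sequence of operators of finite rank tending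
strongly to the identity, `C([0,1], E)` has the SHAI property.

(3) `C[0,1]` has the SHAI property. -/
theorem result (𝕜 : Type u) [RCLike 𝕜] :
    (∀ (X : Type v) [NormedAddCommGroup X] [NormedSpace 𝕜 X] [CompleteSpace X]
      [TopologicalSpace.SeparableSpace X], HasFiniteRankApproximation 𝕜 X →
      ContainsCZeroSum 𝕜 X → HasSHAI.{u, v, w} 𝕜 X) ∧
    (∀ (E : Type v) [NormedAddCommGroup E] [NormedSpace 𝕜 E] [CompleteSpace E]
      [TopologicalSpace.SeparableSpace E], HasFiniteRankApproximation 𝕜 E →
      HasSHAI.{u, v, w} 𝕜 C(Set.Icc (0 : ℝ) 1, E)) ∧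
    HasSHAI.{u, u, w} 𝕜 C(Set.Icc (0 : ℝ) 1, 𝕜) := by
  have h2 : ∀ (E : Type v) [NormedAddCommGroup E] [NormedSpace 𝕜 E] [CompleteSpace E]
      [TopologicalSpace.SeparableSpace E], HasFiniteRankApproximation 𝕜 E →
      HasSHAI.{u, v, w} 𝕜 C(Set.Icc (0 : ℝ) 1, E) := by
    rintro E _ _ _ _ ⟨P, hP, hlim⟩ Y _ _ _ _ φ hφ
    letI : NormedSpace ℝ E := NormedSpace.restrictScalars ℝ 𝕜 E
    haveI : IsScalarTower ℝ 𝕜 E := by
      refine ⟨fun x y z => ?_⟩
      show (x • y) • z = (algebraMap ℝ 𝕜 x) • (y • z)
      rw [Algebra.smul_def, mul_smul]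
    exact Pool.Agent.Y283.SH.shai_vec P hP hlim φ hφ
  refine ⟨?_, h2, ?_⟩
  · rintro X _ _ _ _ ⟨P, hP, hlim⟩ ⟨J, V, c, hV, hVJ⟩ Y _ _ _ _ φ hφ
    exact Pool.Agent.Y283.SH.shai P hP hlim J V c hV hVJ φ hφ
  · intro Y _ _ _ _ φ hφ
    exact Pool.Agent.Y283.SH.shai_vec (fun _ => 1) (fun _ => inferInstance)
      (fun x => tendsto_const_nhds) φ hφ

end Pool.Agent.Results.MP_7b3514_an.ShaiCZeroSums
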